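import Pool.Agent.Run7.h432.LV.Stm3

set_option autoImplicit false

namespace Run7.h884.LV

open Run7.h432.LV

universe u

theorem t_STC : S_STC.{u} := by
  intro U _ I m hC w hw c' x hx z hz
  have hmap : ∀ l : List (U ⊕ Fin m), (l.map (Sum.map id Fin.succ)).filterMap Sum.getRight? =
      (l.filterMap Sum.getRight?).map Fin.succ := by
    intro l
    induction l with
    | nil => rfl
    | cons a l ih =>
      rcases a with a | a
      · exact ih
      · exact congrArg (List.cons a.succ) ih
  have hw1 : Once (w.map (Sum.map id Fin.succ) ++ [Sum.inl c', Sum.inr (0 : Fin (m + 1))]) := by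
    constructor
    · rw [List.filterMap_append, hmap]
      have h0 : ([Sum.inl c', Sum.inr (0 : Fin (m + 1))] : List (U ⊕ Fin (m + 1))).filterMap
          Sum.getRight? = [0] := rfl
      rw [h0, List.nodup_append]
      refine ⟨hw.1.map (Fin.succ_injective m), List.nodup_singleton _, ?_⟩
      intro a ha b hb hab
      rw [List.mem_singleton] at hb
      obtain ⟨i, -, rfl⟩ := List.mem_map.1 ha
      exact Fin.succ_ne_zero i (hab.trans hb)
    · intro i
      refine Fin.cases ?_ (fun i => ?_) i
      · simp
      · rw [List.mem_append]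
        exact Or.inl (List.mem_map.2 ⟨Sum.inr i, hw.2 i, rfl⟩)
  have hev : ∀ y : Fin (m + 1) → U,
      ev (w.map (Sum.map id Fin.succ) ++ [Sum.inl c', Sum.inr (0 : Fin (m + 1))]) y =
        ev w (fun j => y j.succ) * c' * y 0 := by
    intro y
    unfold ev
    rw [List.map_append, List.prod_append, List.map_map]
    have h1 : (Sum.elim id y ∘ Sum.map id Fin.succ : U ⊕ Fin m → U) =
        Sum.elim id (fun j => y j.succ) := by
      funext a
      rcases a with a | a <;> rfl
    rw [h1]
    simp [mul_assoc]
  have h := hC _ hw1 (Fin.cons z x) (by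
    intro i
    refine Fin.cases ?_ (fun i => ?_) i
    · simpa using hz
    · simpa using hx i)
  unfold alt at h
  rw [← Equiv.sum_comp Equiv.Perm.decomposeFin.symm, Fintype.sum_prod_type, Fin.sum_univ_succ] at h
  have hA : ∑ e : Equiv.Perm (Fin m), (Equiv.Perm.sign (Equiv.Perm.decomposeFin.symm
      ((0 : Fin (m + 1)), e)) : ℤ) • ev (w.map (Sum.map id Fin.succ) ++
        [Sum.inl c', Sum.inr (0 : Fin (m + 1))])
        ((Fin.cons z x : Fin (m + 1) → U) ∘ (Equiv.Perm.decomposeFin.symm ((0 : Fin (m + 1)), e))) =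
      alt w x * c' * z := by
    unfold alt
    rw [Finset.sum_mul, Finset.sum_mul]
    refine Finset.sum_congr rfl fun e _ => ?_
    rw [hev, Equiv.Perm.decomposeFin.symm_sign, if_pos rfl, one_mul]
    have h2 : (fun j : Fin m => ((Fin.cons z x : Fin (m + 1) → U) ∘
        (Equiv.Perm.decomposeFin.symm ((0 : Fin (m + 1)), e))) j.succ) = x ∘ e := by
      funext j
      simp [Equiv.Perm.decomposeFin_symm_apply_succ]
    have h3 : ((Fin.cons z x : Fin (m + 1) → U) ∘
        (Equiv.Perm.decomposeFin.symm ((0 : Fin (m + 1)), e))) 0 = z := by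
      simp [Equiv.Perm.decomposeFin_symm_apply_zero]
    rw [h2, h3, smul_mul_assoc, smul_mul_assoc]
  have hB : ∀ i : Fin m, ∑ e : Equiv.Perm (Fin m), (Equiv.Perm.sign (Equiv.Perm.decomposeFin.symm
      (i.succ, e)) : ℤ) • ev (w.map (Sum.map id Fin.succ) ++
        [Sum.inl c', Sum.inr (0 : Fin (m + 1))])
        ((Fin.cons z x : Fin (m + 1) → U) ∘ (Equiv.Perm.decomposeFin.symm (i.succ, e))) =
      - (alt w (Function.update x i z) * c' * x i) := by
    intro i
    unfold alt
    rw [Finset.sum_mul, Finset.sum_mul, ← Finset.sum_neg_distrib]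
    refine Finset.sum_congr rfl fun e _ => ?_
    rw [hev, Equiv.Perm.decomposeFin.symm_sign, if_neg (Fin.succ_ne_zero i)]
    have h2 : (fun j : Fin m => ((Fin.cons z x : Fin (m + 1) → U) ∘
        (Equiv.Perm.decomposeFin.symm (i.succ, e))) j.succ) = Function.update x i z ∘ e := by
      funext j
      rw [Function.comp_apply, Equiv.Perm.decomposeFin_symm_apply_succ, Function.comp_apply]
      by_cases hj : e j = i
      · rw [hj, Equiv.swap_apply_right, Function.update_self, Fin.cons_zero]
      · rw [Equiv.swap_apply_of_ne_of_ne (Fin.succ_ne_zero _)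
          (fun h => hj (Fin.succ_injective _ h)), Function.update_of_ne hj, Fin.cons_succ]
    have h3 : ((Fin.cons z x : Fin (m + 1) → U) ∘
        (Equiv.Perm.decomposeFin.symm (i.succ, e))) 0 = x i := by
      rw [Function.comp_apply, Equiv.Perm.decomposeFin_symm_apply_zero, Fin.cons_succ]
    rw [h2, h3]
    simp [mul_assoc]
  rw [hA, Finset.sum_congr rfl fun i _ => hB i, Finset.sum_neg_distrib] at h
  exact sub_eq_zero.1 (by rw [sub_eq_add_neg]; exact h)

end Run7.h884.LV
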